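import Mathlib
import Pool.Agent.Helper747.PLF

/-!
Further properties of the spaces of Helper747.PL: first countability, clopen base, coarser
separable metrizable topologies, and failure of normality of the powers.
-/

set_option autoImplicit false
open Set Topology Filter

namespace Pool.Agent.Y644.PLN

open Pool.Agent.Helper747.BL (Str X pre cyl pre_length pre_prefix mem_cyl_pre prefix_iff_of_mem
  mem_cyl_iff cyl_mono cyl_disjoint isClopen_cyl)
open Pool.Agent.Helper747.PL

section General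

variable {J : Type} {D : Data J}

theorem nhds_hasBasis (x : Sp D) : (𝓝 x).HasBasis (fun _ : ℕ => True) fun m => {y | Near m x y} := by
  refine ⟨fun U => ⟨fun hU => ?_, ?_⟩⟩
  · obtain ⟨V, hVU, hV, hx⟩ := mem_nhds_iff.1 hU
    obtain ⟨m, hm⟩ := isOpen_def.1 hV x hx
    exact ⟨m, trivial, fun y hy => hVU (hm y hy)⟩
  · rintro ⟨m, -, hm⟩
    exact mem_of_superset ((isOpen_near m x).mem_nhds (Near.refl m x)) hm

instance firstCountable_Sp : FirstCountableTopology (Sp D) :=
  ⟨fun x => (nhds_hasBasis x).isCountablyGenerated⟩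

/-- every point has arbitrarily small clopen neighbourhoods -/
def ClopenNhds (P : Type) [TopologicalSpace P] : Prop :=
  ∀ (U : Set P), IsOpen U → ∀ x ∈ U, ∃ V, IsClopen V ∧ x ∈ V ∧ V ⊆ U

theorem ClopenNhds.basis {P : Type} [TopologicalSpace P] (h : ClopenNhds P) :
    TopologicalSpace.IsTopologicalBasis {s : Set P | IsClopen s} := by
  refine TopologicalSpace.isTopologicalBasis_of_isOpen_of_nhds (fun u hu => hu.2) ?_
  intro x U hx hU
  obtain ⟨V, h1, h2, h3⟩ := h U hU x hx
  exact ⟨V, h1, h2, h3⟩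

theorem clopenNhds_Sp : ClopenNhds (Sp D) := by
  intro U hU x hx
  obtain ⟨m, hm⟩ := isOpen_def.1 hU x hx
  by_cases h : pt x ∈ D.N (lab x)
  · exact ⟨piece (lab x) (pre (pt x) m), isClopen_piece _ _, ⟨rfl, mem_cyl_pre _ _⟩,
      fun y hy => hm y (Or.inr ⟨h, hy.1, hy.2⟩)⟩
  · refine ⟨{x}, ⟨isClosed_singleton, isOpen_singleton_of h⟩, rfl, ?_⟩
    rintro y rfl
    exact hx

theorem clopenNhds_pi {P : Type} [TopologicalSpace P] (h : ClopenNhds P) (n : ℕ) :
    ClopenNhds (Fin n → P) := by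
  intro U hU x hx
  obtain ⟨u, h1, h2⟩ := isOpen_pi_iff'.1 hU x hx
  choose V hV using fun l => h (u l) (h1 l).1 (x l) (h1 l).2
  refine ⟨⋂ l, (fun q : Fin n → P => q l) ⁻¹' V l,
    isClopen_iInter_of_finite fun l => (hV l).1.preimage (continuous_apply l), ?_, ?_⟩
  · exact mem_iInter.2 fun l => (hV l).2.1
  · intro q hq
    exact h2 fun l _ => (hV l).2.2 (mem_iInter.1 hq l)

/-- there is a coarser separable metrizable topology -/
def Submetrizable (P : Type) [TopologicalSpace P] : Prop :=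
  ∃ (M : Type) (_ : TopologicalSpace M), TopologicalSpace.MetrizableSpace M ∧
    TopologicalSpace.SeparableSpace M ∧ ∃ i : P → M, Continuous i ∧ Function.Injective i

theorem submetrizable_Sp {a b : ℕ} {D : Data (Fin a ⊕ Fin b)} : Submetrizable (Sp D) := by
  refine ⟨(Fin a ⊕ Fin b) × X, inferInstance, inferInstance, inferInstance,
    fun x => (lab x, pt x), ?_, ?_⟩
  · refine Continuous.prodMk ?_ continuous_pt
    rw [continuous_discrete_rng]
    intro j
    exact isOpen_lab {j}
  · intro x y h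
    exact sp_ext (congrArg Prod.fst h) (congrArg Prod.snd h)

theorem submetrizable_pi {P : Type} [TopologicalSpace P] (h : Submetrizable P) (n : ℕ) :
    Submetrizable (Fin n → P) := by
  obtain ⟨M, t, h1, h2, i, hi, hi2⟩ := h
  refine ⟨Fin n → M, inferInstance, inferInstance, inferInstance, fun q l => i (q l), ?_, ?_⟩
  · exact continuous_pi fun l => hi.comp (continuous_apply l)
  · intro p q hpq
    funext l
    exact hi2 (congrFun hpq l)

theorem normal_of_le {P : Type} [TopologicalSpace P] [T2Space P] [Nonempty P] {m n : ℕ}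
    (h : m ≤ n) (hP : NormalSpace (Fin n → P)) : NormalSpace (Fin m → P) := by
  have hc : Continuous fun (q : Fin n → P) (i : Fin m) => q (Fin.castLE h i) :=
    continuous_pi fun i => continuous_apply _
  have hc2 : Continuous fun (x : Fin m → P) (l : Fin n) =>
      if hl : (l : ℕ) < m then x ⟨l, hl⟩ else Classical.arbitrary P := by
    refine continuous_pi fun l => ?_
    by_cases hl : (l : ℕ) < m
    · simp only [dif_pos hl]
      exact continuous_apply _
    · simp only [dif_neg hl]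
      exact continuous_const
  have hinv : Function.LeftInverse (fun (q : Fin n → P) (i : Fin m) => q (Fin.castLE h i))
      (fun (x : Fin m → P) (l : Fin n) =>
        if hl : (l : ℕ) < m then x ⟨l, hl⟩ else Classical.arbitrary P) := by
    intro x
    funext i
    simp
  exact (hinv.isClosedEmbedding hc hc2).normalSpace

theorem normal_up_one {P : Type} [TopologicalSpace P] (h : NormalSpace (Fin 1 → P)) :
    NormalSpace P := by
  have e : P ≃ₜ (Fin 1 → P) := (Homeomorph.funUnique (Fin 1) P).symm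
  exact e.isClosedEmbedding.normalSpace

end General

section Main
variable {T : ℕ → Set X} (hdis : ∀ i j, i ≠ j → Disjoint (T i) (T j)) {a b : ℕ}

/-- the diagonal points of the `i`-th kind -/
def Dset (T : ℕ → Set X) (a b : ℕ) (i0 : Fin b) (k : ℕ) : Set (Fin b → Sp (dat T a b)) :=
  {p | (∀ l, lab (p l) = Sum.inr l) ∧ (∀ l, pt (p l) = pt (p i0)) ∧ pt (p i0) ∈ T k}

include hdis in
theorem isClosed_Dset (i0 : Fin b) (k : ℕ) : IsClosed (Dset T a b i0 k) := by
  apply isClosed_of_closure_subset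
  intro p hp
  have h1 : ∀ l, lab (p l) = Sum.inr l := by
    intro l
    by_contra hl
    have ho : IsOpen ((fun p : Fin b → Sp (dat T a b) => p l) ⁻¹'
          {y | lab y ∈ ({Sum.inr l}ᶜ : Set (Fin a ⊕ Fin b))}) :=
      (isOpen_lab _).preimage (continuous_apply l)
    obtain ⟨q, hq1, hq2⟩ := mem_closure_iff.1 hp _ ho hl
    exact hq1 (hq2.1 l)
  have h2 : ∀ l, pt (p l) = pt (p i0) := by
    intro l
    by_contra hl
    have ho : IsOpen {q' : Fin b → Sp (dat T a b) | pt (q' l) ≠ pt (q' i0)} :=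
      isOpen_ne_fun (continuous_pt.comp (continuous_apply l))
        (continuous_pt.comp (continuous_apply i0))
    obtain ⟨q, hq1, hq2⟩ := mem_closure_iff.1 hp _ ho hl
    exact hq1 (hq2.2.1 l)
  refine ⟨h1, h2, ?_⟩
  have h3 := pt_mem (p i0)
  rw [h1 i0] at h3
  obtain ⟨j, hj⟩ := h3
  have hiso : pt (p j) ∉ (dat T a b).N (lab (p j)) := by
    rw [h1 j, h2 j]
    rintro ⟨i, h4, h5⟩
    have := idx_eq hdis h5 hj
    apply h4
    apply Fin.ext
    omega
  have ho : IsOpen ((fun q : Fin b → Sp (dat T a b) => q j) ⁻¹' {p j}) :=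
    (isOpen_singleton_of hiso).preimage (continuous_apply j)
  obtain ⟨q, hq1, hq2⟩ := mem_closure_iff.1 hp _ ho rfl
  have hq3 : q j = p j := hq1
  have h6 := hq2.2.2
  rw [← hq2.2.1 j, hq3, h2 j] at h6
  exact h6

include hdis in
/-- the critical power is not even normal -/
theorem not_normal_dat (hunc : ∀ i, ¬ (T i).Countable)
    (hT : ∀ (n : ℕ) (C : Set (Fin n → X)), IsClosed C → ∀ e : Fin n → ℕ,
      (∀ x ∈ C, ¬ ∀ i, x i ∈ T (e i)) → Pool.Agent.Helper747.PL.Small C) (hb : 2 ≤ b) :
    ¬ NormalSpace (Fin b → Sp (dat T a b)) := by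
  classical
  intro hN
  let i0 : Fin b := ⟨0, by omega⟩
  let i1 : Fin b := ⟨1, by omega⟩
  have h01 : i0 ≠ i1 := by
    intro h
    have := congrArg Fin.val h
    simp [i0, i1] at this
  -- the diagonal points
  let d : (x : X) → (∃ i : Fin b, x ∈ T (2 * (i : ℕ) + 2)) → Fin b → Sp (dat T a b) :=
    fun x hx l => ⟨(Sum.inr l, x), hx⟩
  have m2 : ∀ x ∈ T 2, ∃ i : Fin b, x ∈ T (2 * (i : ℕ) + 2) := fun x hx => ⟨i0, hx⟩
  have m4 : ∀ x ∈ T 4, ∃ i : Fin b, x ∈ T (2 * (i : ℕ) + 2) := fun x hx => ⟨i1, hx⟩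
  have hdisj : Disjoint (Dset T a b i0 2) (Dset T a b i0 4) := by
    rw [Set.disjoint_left]
    intro p hp hp'
    exact Set.disjoint_left.1 (hdis 2 4 (by norm_num)) hp.2.2 hp'.2.2
  obtain ⟨U, V, hU, hV, hDU, hDV, hUV⟩ := hN.normal _ _ (isClosed_Dset hdis i0 2)
    (isClosed_Dset hdis i0 4) hdisj
  let A : ℕ → Set X := fun m =>
    {x | ∃ hx : x ∈ T 2, ∀ q, (∀ l, Near m (d x (m2 x hx) l) (q l)) → q ∈ U}
  have hA : ∀ x ∈ T 2, ∃ m, x ∈ A m := by
    intro x hx
    obtain ⟨m, hm⟩ := exists_near_subset hU (hDU (a := d x (m2 x hx)) ⟨fun _ => rfl, fun _ => rfl, hx⟩)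
    exact ⟨m, hx, hm⟩
  have hcl : ∀ m, ∀ y ∈ T 4, y ∉ closure (A m) := by
    intro m y hy hyc
    obtain ⟨k, hk⟩ := exists_near_subset hV
      (hDV (a := d y (m4 y hy)) ⟨fun _ => rfl, fun _ => rfl, hy⟩)
    obtain ⟨x, hxc, hxT, hx⟩ := mem_closure_iff.1 hyc _ (isClopen_cyl (pre y (max m k))).isOpen
      (mem_cyl_pre _ _)
    have hpre : pre x (max m k) = pre y (max m k) := mem_cyl_pre_eq hxc
    let q : Fin b → Sp (dat T a b) := fun l => if l = i1 then d y (m4 y hy) l else d x (m2 x hxT) l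
    have hqU : q ∈ U := by
      apply hx
      intro l
      by_cases hl : l = i1
      · have : q l = d y (m4 y hy) l := if_pos hl
        rw [this]
        refine Or.inr ⟨?_, rfl, ?_⟩
        · show x ∈ {x | ∃ i : Fin b, i ≠ l ∧ x ∈ T (2 * (i : ℕ) + 2)}
          exact ⟨i0, by rw [hl]; exact h01, hxT⟩
        · show y ∈ cyl (pre x m)
          refine cyl_mono (pre_prefix _ (le_max_left m k)) ?_
          rw [hpre]
          exact mem_cyl_pre _ _
      · have : q l = d x (m2 x hxT) l := if_neg hl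
        rw [this]
        exact Near.refl _ _
    have hqV : q ∈ V := by
      apply hk
      intro l
      by_cases hl : l = i1
      · have : q l = d y (m4 y hy) l := if_pos hl
        rw [this]
        exact Near.refl _ _
      · have : q l = d x (m2 x hxT) l := if_neg hl
        rw [this]
        refine Or.inr ⟨?_, rfl, ?_⟩
        · show y ∈ {x | ∃ i : Fin b, i ≠ l ∧ x ∈ T (2 * (i : ℕ) + 2)}
          exact ⟨i1, fun h => hl h.symm, hy⟩
        · show x ∈ cyl (pre y k)
          exact cyl_mono (pre_prefix _ (le_max_right m k)) hxc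
    exact Set.disjoint_left.1 hUV hqU hqV
  have hAc : ∀ m, (A m).Countable := by
    intro m
    obtain ⟨S, hS, hS2⟩ := hT 1 {x : Fin 1 → X | x 0 ∈ closure (A m)}
      (isClosed_closure.preimage (continuous_apply 0)) (fun _ => 4) (by
        intro x hx h
        exact hcl m (x 0) (h 0) hx)
    refine hS.mono fun x hx => ?_
    obtain ⟨i, hi⟩ := hS2 (fun _ => x) (subset_closure hx) (Function.injective_of_subsingleton _)
    exact hi
  apply hunc 2
  refine (Set.countable_iUnion hAc).mono fun x hx => ?_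
  obtain ⟨m, hm⟩ := hA x hx
  exact mem_iUnion.2 ⟨m, hm⟩

end Main

/-- the properties of the spaces -/
theorem exists_space (a b : ℕ) (ha : 1 ≤ a) (hb : b = 0 ∨ 2 ≤ b) :
    ∃ (P : Type) (_ : TopologicalSpace P), T3Space P ∧ Nonempty P ∧
      (FirstCountableTopology P ∧ ClopenNhds P ∧ Submetrizable P) ∧
      (∀ n, (b = 0 ∨ n < b) → ParacompactSpace (Fin n → P)) ∧
      (∀ n, (b = 0 ∨ n < b) → n < a → LindelofSpace (Fin n → P)) ∧
      (∀ n, a ≤ n → ¬ LindelofSpace (Fin n → P)) ∧
      (b ≠ 0 → ∀ n, b ≤ n → ¬ NormalSpace (Fin n → P)) := by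
  obtain ⟨T, hdis, hunc, hT⟩ := exists_generic
  have hpara : ∀ n, (b = 0 ∨ n < b) → ParacompactSpace (Fin n → Sp (dat T a b)) :=
    fun n hn => (up_dat hdis hT ha hn).paracompact
  have h1 : ParacompactSpace (Sp (dat T a b)) := up_one (hpara 1 (by omega))
  have hne : Nonempty (Sp (dat T a b)) := by
    have : (T 0).Nonempty := by
      by_contra h
      rw [Set.not_nonempty_iff_eq_empty] at h
      apply hunc 0
      rw [h]
      exact Set.countable_empty
    obtain ⟨x, hx⟩ := this
    exact ⟨⟨(Sum.inl ⟨0, ha⟩, x), Or.inl hx⟩⟩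
  refine ⟨Sp (dat T a b), inferInstance, inferInstance, hne,
    ⟨inferInstance, clopenNhds_Sp, submetrizable_Sp⟩, hpara,
    fun n hn hna => lindelof_dat hdis hT hn hna, fun n hn hL => ?_, fun hb0 n hn hP => ?_⟩
  · exact not_lindelof_dat hdis ha hunc (lindelof_of_le hn hL)
  · exact not_normal_dat hdis hunc hT (by omega) (normal_of_le hn hP)

end Pool.Agent.Y644.PLN
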